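import Pool.Agent.Helper50.Ram.RamU2b

set_option autoImplicit false

/-!
# Unfolding, with the invariance of the hyperbolic measure as a hypothesis
-/

namespace Pool.Agent.Helper50.Ram

open Complex MeasureTheory
open Pool.Agent.Helper10.Ram hiding trans

theorem measurable_den (g : SL2C) : Measurable (den g) := by
  unfold den
  fun_prop

theorem measurable_act (g : SL2C) : Measurable (act g) := by
  have hd := measurable_den g
  have h1 : Measurable fun p : Pt => (g 0 0 * p.1 + g 0 1) * (starRingEnd ℂ) (g 1 0 * p.1 + g 1 1)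
      + g 0 0 * (starRingEnd ℂ) (g 1 0) * (p.2 : ℂ) ^ 2 := by
    have hc : Measurable fun p : Pt => (starRingEnd ℂ) (g 1 0 * p.1 + g 1 1) :=
      Complex.continuous_conj.measurable.comp (by fun_prop)
    exact ((by fun_prop : Measurable fun p : Pt => g 0 0 * p.1 + g 0 1).mul hc).add (by fun_prop)
  exact (h1.div (Complex.measurable_ofReal.comp hd)).prodMk (measurable_snd.div hd)

theorem countable_ring {R : Subring ℂ} (hR : NiceRing R) : Countable R := by
  have h : (R : Set ℂ) ⊆ ⋃ n : ℕ, {x : ℂ | x ∈ R ∧ ‖x‖ ≤ n} := by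
    intro x hx
    obtain ⟨n, hn⟩ := exists_nat_ge ‖x‖
    exact Set.mem_iUnion.2 ⟨n, hx, hn⟩
  have h2 : (R : Set ℂ).Countable :=
    (Set.countable_iUnion fun n : ℕ => (hR.fin n).countable).mono h
  exact h2.to_subtype

theorem countable_Gam {R : Subring ℂ} (hR : NiceRing R) : Countable (Gam R) := by
  have := countable_ring hR
  have h : Function.Injective (fun (γ : Gam R) (i j : Fin 2) =>
      (⟨(γ : SL2C) i j, mem_Gam.1 γ.2 i j⟩ : R)) := by
    intro γ γ' h
    apply Subtype.ext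
    ext i j
    have := congrFun (congrFun h i) j
    exact congrArg Subtype.val this
  exact h.countable

theorem strip_unfold_aux {R : Subring ℂ} (hR : NiceRing R)
    (hmp : ∀ g : SL2C, MeasurePreserving (act g) hyp hyp) {τ : ℂ} (hτ : IsLat R τ)
    {κ : Pt → ℝ} {C a : ℝ} (hK : Kap R κ C a)
    (ψ : ℝ → ENNReal) (hψ : Measurable ψ) (F : Pt → ENNReal) (hF : Measurable F)
    (hinv : ∀ γ ∈ Gam R, ∀ p ∈ UH, F (act γ p) = F p) :
    ∫⁻ r in Set.Ioi (0 : ℝ), ψ r * cellInt τ 1 F r * ENNReal.ofReal ((r ^ 3)⁻¹)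
      = ENNReal.ofReal (τ.im)⁻¹ *
        ∫⁻ p, ENNReal.ofReal (κ p) * (∑' v : Prim R, ψ (1 / uval v p)) * F p ∂hyp := by
  have h1 := unfold_aux (countable_Gam hR) measurable_act hmp hK (strip τ ψ) F
    (measurable_strip τ hψ) hF hinv
  have h2 : ∫⁻ p, ENNReal.ofReal (κ p) * (∑' γ : Gam R, strip τ ψ (act γ p)) * F p ∂hyp =
      ∫⁻ p, ENNReal.ofReal (κ p) * (∑' v : Prim R, ψ (1 / uval v p)) * F p ∂hyp := by
    refine lintegral_congr_ae ?_
    filter_upwards [ae_UH] with p hp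
    rw [sum_strip hτ ψ hp]
  rw [lintegral_strip hτ.im_pos hψ hF, h2] at h1
  rw [← h1, ← mul_assoc, ← ENNReal.ofReal_mul (inv_nonneg.2 hτ.im_pos.le),
    inv_mul_cancel₀ hτ.im_pos.ne', ENNReal.ofReal_one, one_mul]

end Pool.Agent.Helper50.Ram
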