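import Pool.Agent.Helper10.Ram.Lib

set_option autoImplicit false

/-!
# The action of `SL₂(ℂ)` on the upper half-space: algebraic identities
-/

namespace Pool.Agent.Helper50.Ram

open Complex MeasureTheory
open Pool.Agent.Helper10.Ram

theorem det_eq (g : SL2C) : g 0 0 * g 1 1 - g 0 1 * g 1 0 = 1 := by
  have := g.det_coe
  rwa [Matrix.det_fin_two] at this

theorem den_pos (g : SL2C) {p : Pt} (hp : p ∈ UH) : 0 < den g p := by
  have hp' : 0 < p.2 := hp
  unfold den
  by_cases hc : g 1 0 = 0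
  · have hdet := det_eq g
    have hd : g 1 1 ≠ 0 := by
      rintro hd
      rw [hc, hd] at hdet
      simp at hdet
    rw [hc]
    have : 0 < ‖g 1 1‖ := norm_pos_iff.2 hd
    simp only [zero_mul, zero_add, norm_zero, ne_eq, OfNat.ofNat_ne_zero, not_false_eq_true,
      zero_pow, add_zero]
    positivity
  · have : 0 < ‖g 1 0‖ := norm_pos_iff.2 hc
    positivity

theorem act_mem (g : SL2C) {p : Pt} (hp : p ∈ UH) : act g p ∈ UH :=
  div_pos hp (den_pos g hp)

/-- the denominator as a complex number -/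
theorem den_coe (g : SL2C) (p : Pt) : (den g p : ℂ) =
    (g 1 0 * p.1 + g 1 1) * (starRingEnd ℂ) (g 1 0 * p.1 + g 1 1)
      + g 1 0 * (starRingEnd ℂ) (g 1 0) * (p.2 : ℂ) ^ 2 := by
  unfold den
  rw [Complex.mul_conj, Complex.mul_conj, Complex.normSq_eq_norm_sq, Complex.normSq_eq_norm_sq]
  push_cast
  ring

theorem act_one (p : Pt) : act 1 p = p := by
  have h1 : den 1 p = 1 := by
    simp [den]
  unfold act
  rw [h1]
  simp

theorem act_trans (x : ℂ) (p : Pt) : act (Pool.Agent.Helper10.Ram.trans x) p = (p.1 + x, p.2) := by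
  have h1 : den (Pool.Agent.Helper10.Ram.trans x) p = 1 := by
    simp [den, Pool.Agent.Helper10.Ram.trans]
  unfold act
  rw [h1]
  simp [Pool.Agent.Helper10.Ram.trans]

theorem mul_coe (g h : SL2C) (i j : Fin 2) : (g * h) i j = g i 0 * h 0 j + g i 1 * h 1 j := by
  rw [Matrix.SpecialLinearGroup.coe_mul, Matrix.mul_apply, Fin.sum_univ_two]

/-- the numerator of the action -/
noncomputable def num (g : SL2C) (p : Pt) : ℂ :=
  (g 0 0 * p.1 + g 0 1) * (starRingEnd ℂ) (g 1 0 * p.1 + g 1 1)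
      + g 0 0 * (starRingEnd ℂ) (g 1 0) * (p.2 : ℂ) ^ 2

theorem act_fst (g : SL2C) (p : Pt) : (act g p).1 = num g p / (den g p : ℂ) := rfl

theorem act_snd (g : SL2C) (p : Pt) : (((act g p).2 : ℝ) : ℂ) = (p.2 : ℂ) / (den g p : ℂ) := by
  show ((p.2 / den g p : ℝ) : ℂ) = _
  push_cast
  rfl

/-- the determinant identity for the Hermitian matrix of a point -/
theorem herm_key (g : SL2C) (p : Pt) :
    num g p * (starRingEnd ℂ) (num g p) + (p.2 : ℂ) ^ 2 =
      ((g 0 0 * p.1 + g 0 1) * (starRingEnd ℂ) (g 0 0 * p.1 + g 0 1)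
        + g 0 0 * (starRingEnd ℂ) (g 0 0) * (p.2 : ℂ) ^ 2) * (den g p : ℂ) := by
  rw [den_coe]
  unfold num
  have hdet := det_eq g
  have hdet' : (starRingEnd ℂ) (g 0 0) * (starRingEnd ℂ) (g 1 1) -
      (starRingEnd ℂ) (g 0 1) * (starRingEnd ℂ) (g 1 0) = 1 := by
    rw [← map_mul, ← map_mul, ← map_sub, hdet, map_one]
  simp only [map_add, map_mul, map_pow, Complex.conj_conj, Complex.conj_ofReal]
  linear_combination (-((p.2 : ℂ) ^ 2 * ((starRingEnd ℂ) (g 0 0) * (starRingEnd ℂ) (g 1 1) -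
      (starRingEnd ℂ) (g 0 1) * (starRingEnd ℂ) (g 1 0)))) * hdet - (p.2 : ℂ) ^ 2 * hdet'

theorem gen1 (x y xb yb N Nb A D r2 : ℂ) (hD : D ≠ 0) (key : N * Nb + r2 = A * D) :
    (x * (N / D) + y) * (xb * (Nb / D) + yb) + x * xb * (r2 / D ^ 2) =
      (x * xb * A + x * yb * N + y * xb * Nb + y * yb * D) / D := by
  field_simp
  linear_combination (x * xb) * key

theorem gen2 (x y xb yb a b c d ab bb cb db z zb r2 : ℂ) :
    ((x * a + y * c) * z + (x * b + y * d)) * ((xb * ab + yb * cb) * zb + (xb * bb + yb * db))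
      + (x * a + y * c) * (xb * ab + yb * cb) * r2 =
    x * xb * ((a * z + b) * (ab * zb + bb) + a * ab * r2)
      + x * yb * ((a * z + b) * (cb * zb + db) + a * cb * r2)
      + y * xb * ((ab * zb + bb) * (c * z + d) + ab * c * r2)
      + y * yb * ((c * z + d) * (cb * zb + db) + c * cb * r2) := by
  ring

theorem num_expand (g : SL2C) (p : Pt) : num g p =
    (g 0 0 * p.1 + g 0 1) * ((starRingEnd ℂ) (g 1 0) * (starRingEnd ℂ) p.1 +
      (starRingEnd ℂ) (g 1 1)) + g 0 0 * (starRingEnd ℂ) (g 1 0) * (p.2 : ℂ) ^ 2 := by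
  unfold num
  simp only [map_add, map_mul]

theorem num_conj (g : SL2C) (p : Pt) : (starRingEnd ℂ) (num g p) =
    ((starRingEnd ℂ) (g 0 0) * (starRingEnd ℂ) p.1 + (starRingEnd ℂ) (g 0 1)) *
      (g 1 0 * p.1 + g 1 1) + (starRingEnd ℂ) (g 0 0) * (g 1 0) * (p.2 : ℂ) ^ 2 := by
  unfold num
  simp only [map_add, map_mul, map_pow, Complex.conj_conj, Complex.conj_ofReal]

theorem den_expand (g : SL2C) (p : Pt) : (den g p : ℂ) =
    (g 1 0 * p.1 + g 1 1) * ((starRingEnd ℂ) (g 1 0) * (starRingEnd ℂ) p.1 +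
      (starRingEnd ℂ) (g 1 1)) + g 1 0 * (starRingEnd ℂ) (g 1 0) * (p.2 : ℂ) ^ 2 := by
  rw [den_coe]
  simp only [map_add, map_mul]

theorem herm_key' (g : SL2C) (p : Pt) :
    num g p * (starRingEnd ℂ) (num g p) + (p.2 : ℂ) ^ 2 =
      ((g 0 0 * p.1 + g 0 1) * ((starRingEnd ℂ) (g 0 0) * (starRingEnd ℂ) p.1 +
      (starRingEnd ℂ) (g 0 1))
        + g 0 0 * (starRingEnd ℂ) (g 0 0) * (p.2 : ℂ) ^ 2) * (den g p : ℂ) := by
  rw [herm_key]
  simp only [map_add, map_mul]

theorem conj_div_den (g : SL2C) (p : Pt) :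
    (starRingEnd ℂ) (num g p / (den g p : ℂ)) = (starRingEnd ℂ) (num g p) / (den g p : ℂ) := by
  rw [map_div₀, Complex.conj_ofReal]

theorem den_mul (g h : SL2C) {p : Pt} (hp : p ∈ UH) :
    den (g * h) p = den g (act h p) * den h p := by
  have hd := (den_pos h hp).ne'
  have hdc : (den h p : ℂ) ≠ 0 := by exact_mod_cast hd
  apply Complex.ofReal_injective
  rw [Complex.ofReal_mul, den_expand (g * h) p, den_expand g (act h p), act_fst, act_snd,
    conj_div_den]
  simp only [mul_coe, map_add, map_mul]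
  rw [div_pow, gen1 _ _ _ _ _ _ _ _ _ hdc (herm_key' h p), div_mul_cancel₀ _ hdc, gen2,
    num_conj, num_expand, den_expand]

theorem num_mul (g h : SL2C) {p : Pt} (hp : p ∈ UH) :
    num (g * h) p = num g (act h p) * (den h p : ℂ) := by
  have hd := (den_pos h hp).ne'
  have hdc : (den h p : ℂ) ≠ 0 := by exact_mod_cast hd
  rw [num_expand (g * h) p, num_expand g (act h p), act_fst, act_snd,
    conj_div_den]
  simp only [mul_coe, map_add, map_mul]
  rw [div_pow, gen1 _ _ _ _ _ _ _ _ _ hdc (herm_key' h p), div_mul_cancel₀ _ hdc, gen2,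
    num_conj, num_expand, den_expand]

theorem act_mul (g h : SL2C) {p : Pt} (hp : p ∈ UH) : act (g * h) p = act g (act h p) := by
  have hd := (den_pos h hp).ne'
  have hd2 := (den_pos g (act_mem h hp)).ne'
  have hdc : (den h p : ℂ) ≠ 0 := by exact_mod_cast hd
  have hdc2 : (den g (act h p) : ℂ) ≠ 0 := by exact_mod_cast hd2
  refine Prod.ext ?_ ?_
  · rw [act_fst, act_fst, num_mul g h hp, den_mul g h hp]
    push_cast
    field_simp
  · show p.2 / den (g * h) p = (p.2 / den h p) / den g (act h p)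
    rw [den_mul g h hp]
    field_simp

end Pool.Agent.Helper50.Ram
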