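import Pool.Agent.Helper50.Ram.RamU2c
import Pool.Agent.Helper68.RamDiff

set_option autoImplicit false

/-! # Module U2 : unfolding along the orbits of `Gam R` and along the strip of the cusp -/

namespace Pool.Agent.Helper50.Ram

open Complex MeasureTheory
open Pool.Agent.Helper10.Ram hiding trans

/-- unfolding -/
theorem unfold {R : Subring ℂ} (hR : NiceRing R) {κ : Pt → ℝ} {C a : ℝ} (hK : Kap R κ C a)
    (η F : Pt → ENNReal) (hη : Measurable η) (hF : Measurable F)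
    (hinv : ∀ γ ∈ Gam R, ∀ p ∈ UH, F (act γ p) = F p) :
    ∫⁻ p, η p * F p ∂hyp
      = ∫⁻ p, ENNReal.ofReal (κ p) * (∑' γ : Gam R, η (act γ p)) * F p ∂hyp :=
  unfold_aux (countable_Gam hR) measurable_act Pool.Agent.Helper68.Ram.measurePreserving_act
    hK η F hη hF hinv

/-- strip unfolding (cusp cell) -/
theorem strip_unfold {R : Subring ℂ} (hR : NiceRing R) {τ : ℂ} (hτ : IsLat R τ)
    {κ : Pt → ℝ} {C a : ℝ} (hK : Kap R κ C a)
    (ψ : ℝ → ENNReal) (hψ : Measurable ψ) (F : Pt → ENNReal) (hF : Measurable F)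
    (hinv : ∀ γ ∈ Gam R, ∀ p ∈ UH, F (act γ p) = F p) :
    ∫⁻ r in Set.Ioi (0 : ℝ), ψ r * cellInt τ 1 F r * ENNReal.ofReal ((r ^ 3)⁻¹)
      = ENNReal.ofReal (τ.im)⁻¹ *
        ∫⁻ p, ENNReal.ofReal (κ p) * (∑' v : Prim R, ψ (1 / uval v p)) * F p ∂hyp :=
  strip_unfold_aux hR Pool.Agent.Helper68.Ram.measurePreserving_act hτ hK ψ hψ F hF hinv

end Pool.Agent.Helper50.Ram
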