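import Pool.Agent.Helper50.Ram.RamGalg

set_option autoImplicit false

/-!
# Unfolding with a partition of unity
-/

namespace Pool.Agent.Helper50.Ram

open Complex MeasureTheory
open Pool.Agent.Helper10.Ram

theorem measurableSet_UH : MeasurableSet UH :=
  measurableSet_lt measurable_const measurable_snd

theorem ae_UH : ∀ᵐ p ∂hyp, p ∈ UH :=
  (withDensity_absolutelyContinuous _ _).ae_le (ae_restrict_mem measurableSet_UH)

theorem sum_kap {R : Subring ℂ} {κ : Pt → ℝ} {C a : ℝ} (hK : Kap R κ C a) {p : Pt} (hp : p ∈ UH) :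
    ∑' γ : Gam R, ENNReal.ofReal (κ (act γ p)) = 1 := by
  have h := hK.sum p hp
  rw [← ENNReal.ofReal_tsum_of_nonneg (fun γ => hK.nonneg _) h.summable, h.tsum_eq,
    ENNReal.ofReal_one]

theorem unfold_aux {R : Subring ℂ} (hcount : Countable (Gam R))
    (hact : ∀ g : SL2C, Measurable (act g)) (hmp : ∀ g : SL2C, MeasurePreserving (act g) hyp hyp)
    {κ : Pt → ℝ} {C a : ℝ} (hK : Kap R κ C a)
    (η F : Pt → ENNReal) (hη : Measurable η) (hF : Measurable F)
    (hinv : ∀ γ ∈ Gam R, ∀ p ∈ UH, F (act γ p) = F p) :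
    ∫⁻ p, η p * F p ∂hyp
      = ∫⁻ p, ENNReal.ofReal (κ p) * (∑' γ : Gam R, η (act γ p)) * F p ∂hyp := by
  have hκ : Measurable (fun p => ENNReal.ofReal (κ p)) :=
    ENNReal.measurable_ofReal.comp hK.smooth.continuous.measurable
  calc ∫⁻ p, η p * F p ∂hyp
      = ∫⁻ p, ∑' γ : Gam R, ENNReal.ofReal (κ (act γ p)) * η p * F p ∂hyp := by
        refine lintegral_congr_ae ?_
        filter_upwards [ae_UH] with p hp
        simp only [mul_assoc]
        rw [ENNReal.tsum_mul_right, sum_kap hK hp, one_mul]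
    _ = ∑' γ : Gam R, ∫⁻ p, ENNReal.ofReal (κ (act γ p)) * η p * F p ∂hyp := by
        refine lintegral_tsum fun γ => ?_
        exact (((hκ.comp (hact γ)).mul hη).mul hF).aemeasurable
    _ = ∑' γ : Gam R, ∫⁻ p, ENNReal.ofReal (κ p) * η (act (γ⁻¹ : Gam R) p) * F p ∂hyp := by
        refine tsum_congr fun γ => ?_
        have hm : Measurable (fun p => ENNReal.ofReal (κ (act (γ : SL2C) p)) * η p * F p) :=
          ((hκ.comp (hact γ)).mul hη).mul hF
        rw [← (hmp ((γ⁻¹ : Gam R) : SL2C)).lintegral_comp hm]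
        refine lintegral_congr_ae ?_
        filter_upwards [ae_UH] with p hp
        show ENNReal.ofReal (κ (act γ (act ((γ⁻¹ : Gam R) : SL2C) p))) * η (act ((γ⁻¹ : Gam R) : SL2C) p)
          * F (act ((γ⁻¹ : Gam R) : SL2C) p) = _
        have h1 : act (γ : SL2C) (act ((γ⁻¹ : Gam R) : SL2C) p) = p := by
          rw [← act_mul _ _ hp, ← Subgroup.coe_mul, mul_inv_cancel, Subgroup.coe_one, act_one]
        rw [h1, hinv _ (γ⁻¹ : Gam R).2 p hp]
    _ = ∑' γ : Gam R, ∫⁻ p, ENNReal.ofReal (κ p) * η (act γ p) * F p ∂hyp :=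
        (Equiv.inv (Gam R)).tsum_eq
          (fun γ : Gam R => ∫⁻ p, ENNReal.ofReal (κ p) * η (act (γ : SL2C) p) * F p ∂hyp)
    _ = ∫⁻ p, ∑' γ : Gam R, ENNReal.ofReal (κ p) * η (act γ p) * F p ∂hyp := by
        refine (lintegral_tsum fun γ => ?_).symm
        exact ((hκ.mul (hη.comp (hact γ))).mul hF).aemeasurable
    _ = _ := by
        refine lintegral_congr fun p => ?_
        rw [ENNReal.tsum_mul_right, ENNReal.tsum_mul_left]

/-! ## The cell -/

/-- second real coordinate of `z` with respect to the basis `1, τ` -/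
noncomputable def crdT (τ z : ℂ) : ℝ := z.im / τ.im

/-- first real coordinate of `z` with respect to the basis `1, τ` -/
noncomputable def crdS (τ z : ℂ) : ℝ := z.re - z.im / τ.im * τ.re

/-- the half-open unit parallelogram -/
def cellSet (τ : ℂ) : Set ℂ :=
  {z | crdS τ z ∈ Set.Ico (0 : ℝ) 1 ∧ crdT τ z ∈ Set.Ico (0 : ℝ) 1}

theorem measurable_crdT (τ : ℂ) : Measurable (crdT τ) := by
  unfold crdT
  fun_prop

theorem measurable_crdS (τ : ℂ) : Measurable (crdS τ) := by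
  unfold crdS
  fun_prop

theorem measurableSet_cellSet (τ : ℂ) : MeasurableSet (cellSet τ) :=
  ((measurable_crdS τ) measurableSet_Ico).inter ((measurable_crdT τ) measurableSet_Ico)

theorem crdT_add {τ : ℂ} (hτ : 0 < τ.im) (z : ℂ) (a b : ℤ) :
    crdT τ (z + (a + b * τ)) = crdT τ z + b := by
  unfold crdT
  have : τ.im ≠ 0 := hτ.ne'
  simp
  field_simp

theorem crdS_add {τ : ℂ} (hτ : 0 < τ.im) (z : ℂ) (a b : ℤ) :
    crdS τ (z + (a + b * τ)) = crdS τ z + a := by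
  unfold crdS
  have : τ.im ≠ 0 := hτ.ne'
  simp
  field_simp
  ring

theorem exists_mem_cell {R : Subring ℂ} {τ : ℂ} (hτ : IsLat R τ) (z : ℂ) :
    ∃ x ∈ R, z + x ∈ cellSet τ := by
  refine ⟨((-⌊crdS τ z⌋ : ℤ) : ℂ) + ((-⌊crdT τ z⌋ : ℤ) : ℂ) * τ, (hτ.mem_iff _).2 ⟨_, _, rfl⟩, ?_⟩
  unfold cellSet
  rw [Set.mem_ofPred_eq, crdS_add hτ.im_pos, crdT_add hτ.im_pos]
  push_cast
  have h1 := Int.fract_nonneg (crdS τ z)
  have h2 := Int.fract_lt_one (crdS τ z)
  have h3 := Int.fract_nonneg (crdT τ z)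
  have h4 := Int.fract_lt_one (crdT τ z)
  unfold Int.fract at h1 h2 h3 h4
  exact ⟨⟨by linarith, by linarith⟩, ⟨by linarith, by linarith⟩⟩

theorem cell_unique {R : Subring ℂ} {τ : ℂ} (hτ : IsLat R τ) {z x : ℂ} (hx : x ∈ R)
    (h1 : z ∈ cellSet τ) (h2 : z + x ∈ cellSet τ) : x = 0 := by
  obtain ⟨a, b, rfl⟩ := (hτ.mem_iff x).1 hx
  unfold cellSet at h1 h2
  rw [Set.mem_ofPred_eq, crdS_add hτ.im_pos, crdT_add hτ.im_pos] at h2
  rw [Set.mem_ofPred_eq] at h1
  obtain ⟨⟨h3, h4⟩, ⟨h5, h6⟩⟩ := h1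
  obtain ⟨⟨h7, h8⟩, ⟨h9, h10⟩⟩ := h2
  have ha : a = 0 := by
    have e1 : (-1 : ℝ) < a := by linarith
    have e2 : (a : ℝ) < 1 := by linarith
    have e3 : (-1 : ℤ) < a := by exact_mod_cast e1
    have e4 : a < (1 : ℤ) := by exact_mod_cast e2
    omega
  have hb : b = 0 := by
    have e1 : (-1 : ℝ) < b := by linarith
    have e2 : (b : ℝ) < 1 := by linarith
    have e3 : (-1 : ℤ) < b := by exact_mod_cast e1
    have e4 : b < (1 : ℤ) := by exact_mod_cast e2
    omega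
  rw [ha, hb]
  simp

theorem lintegral_scale {a : ℝ} (ha : 0 < a) (K : ℝ → ENNReal) (hK : Measurable K) :
    ∫⁻ y : ℝ, K y = ENNReal.ofReal a * ∫⁻ t : ℝ, K (a * t) := by
  conv_lhs => rw [← Real.smul_map_volume_mul_left ha.ne']
  rw [lintegral_smul_measure, lintegral_map hK (measurable_const_mul _), abs_of_pos ha,
    smul_eq_mul]

/-- integration over `ℂ` in the coordinates `s, t` -/
theorem lintegral_coord {τ : ℂ} (hτ : 0 < τ.im) (g : ℂ → ENNReal) (hg : Measurable g) :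
    ∫⁻ z, g z = ENNReal.ofReal τ.im * ∫⁻ t : ℝ, ∫⁻ s : ℝ, g (s + t * τ) := by
  have hτ0 : τ.im ≠ 0 := hτ.ne'
  have hg2 : Measurable fun q : ℝ × ℝ => g (measurableEquivRealProd.symm q) :=
    hg.comp measurableEquivRealProd.symm.measurable
  have e1 : ∫⁻ z, g z = ∫⁻ q : ℝ × ℝ, g (measurableEquivRealProd.symm q) := by
    rw [← (volume_preserving_equiv_real_prod).lintegral_comp hg2]
    simp
  have e2 : ∫⁻ q : ℝ × ℝ, g (measurableEquivRealProd.symm q) =
      ∫⁻ y : ℝ, ∫⁻ x : ℝ, g ⟨x, y⟩ := by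
    rw [Measure.volume_eq_prod, lintegral_prod_symm' _ hg2]
    rfl
  have e3 : ∀ y : ℝ, ∫⁻ x : ℝ, g ⟨x, y⟩ = ∫⁻ s : ℝ, g ⟨s + y / τ.im * τ.re, y⟩ := fun y =>
    (lintegral_add_right_eq_self (fun x : ℝ => g ⟨x, y⟩) (y / τ.im * τ.re)).symm
  have hg3 : Measurable fun q : ℝ × ℝ => g ⟨q.2 + q.1 / τ.im * τ.re, q.1⟩ := by
    have : Measurable fun q : ℝ × ℝ => measurableEquivRealProd.symm (q.2 + q.1 / τ.im * τ.re, q.1) :=
      measurableEquivRealProd.symm.measurable.comp (by fun_prop)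
    exact hg.comp this
  have hK : Measurable fun y : ℝ => ∫⁻ s : ℝ, g ⟨s + y / τ.im * τ.re, y⟩ :=
    Measurable.lintegral_prod_right' hg3
  have e4 : ∫⁻ y : ℝ, ∫⁻ s : ℝ, g ⟨s + y / τ.im * τ.re, y⟩ =
      ENNReal.ofReal τ.im * ∫⁻ t : ℝ, ∫⁻ s : ℝ, g ⟨s + (τ.im * t) / τ.im * τ.re, τ.im * t⟩ :=
    lintegral_scale hτ _ hK
  rw [e1, e2]
  simp only [e3]
  rw [e4]
  congr 1
  refine lintegral_congr fun t => lintegral_congr fun s => ?_
  congr 1
  apply Complex.ext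
  · have h1 : (τ.im * t) / τ.im = t := by field_simp
    simp [h1]
  · simp
    ring

theorem mem_cell_coord {τ : ℂ} (hτ : 0 < τ.im) (s t : ℝ) :
    ((s : ℂ) + t * τ) ∈ cellSet τ ↔ s ∈ Set.Ico (0 : ℝ) 1 ∧ t ∈ Set.Ico (0 : ℝ) 1 := by
  have hτ0 : τ.im ≠ 0 := hτ.ne'
  have h1 : crdS τ ((s : ℂ) + t * τ) = s := by
    unfold crdS
    simp
    field_simp
    ring
  have h2 : crdT τ ((s : ℂ) + t * τ) = t := by
    unfold crdT
    simp
    field_simp
  unfold cellSet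
  rw [Set.mem_ofPred_eq, h1, h2]

/-- integration over the half-open cell in the coordinates `s, t` -/
theorem lintegral_cell {τ : ℂ} (hτ : 0 < τ.im) (G : ℂ → ENNReal) (hG : Measurable G) :
    ∫⁻ z in cellSet τ, G z = ENNReal.ofReal τ.im *
      ∫⁻ s in Set.Icc (0 : ℝ) 1, ∫⁻ t in Set.Icc (0 : ℝ) 1, G (s + t * τ) := by
  rw [← lintegral_indicator (measurableSet_cellSet τ),
    lintegral_coord hτ _ (hG.indicator (measurableSet_cellSet τ))]
  congr 1
  rw [← restrict_Ico_eq_restrict_Icc]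
  have hG2 : Measurable fun q : ℝ × ℝ => G ((q.1 : ℂ) + q.2 * τ) := by
    refine hG.comp ?_
    fun_prop
  rw [lintegral_lintegral_swap (f := fun s t : ℝ => G ((s : ℂ) + t * τ)) hG2.aemeasurable]
  rw [← lintegral_indicator measurableSet_Ico]
  refine lintegral_congr fun t => ?_
  by_cases ht : t ∈ Set.Ico (0 : ℝ) 1
  · rw [Set.indicator_of_mem ht, ← lintegral_indicator measurableSet_Ico]
    refine lintegral_congr fun s => ?_
    by_cases hs : s ∈ Set.Ico (0 : ℝ) 1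
    · rw [Set.indicator_of_mem hs, Set.indicator_of_mem ((mem_cell_coord hτ s t).2 ⟨hs, ht⟩)]
    · rw [Set.indicator_of_notMem hs,
        Set.indicator_of_notMem (fun h => hs ((mem_cell_coord hτ s t).1 h).1)]
  · rw [Set.indicator_of_notMem ht]
    refine (lintegral_congr fun s => ?_).trans lintegral_zero
    exact Set.indicator_of_notMem (fun h => ht ((mem_cell_coord hτ s t).1 h).2) _

end Pool.Agent.Helper50.Ram
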