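import Pool.Agent.Helper50.Ram.RamU2a

set_option autoImplicit false

/-!
# Strip unfolding
-/

namespace Pool.Agent.Helper50.Ram

open Complex MeasureTheory
open Pool.Agent.Helper10.Ram hiding trans

/-- translation matrices -/
noncomputable abbrev trn (x : ℂ) : SL2C := Pool.Agent.Helper10.Ram.trans x

theorem mem_Gam {R : Subring ℂ} {g : SL2C} : g ∈ Gam R ↔ ∀ i j, g i j ∈ R := by
  constructor
  · rintro ⟨h, rfl⟩ i j
    exact (h i j).2
  · intro h
    let M : Matrix (Fin 2) (Fin 2) R := Matrix.of fun i j => ⟨g i j, h i j⟩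
    have hM : M.det = 1 := by
      rw [Matrix.det_fin_two]
      apply Subtype.ext
      have := det_eq g
      exact this
    refine ⟨⟨M, hM⟩, ?_⟩
    ext i j
    rfl

theorem trn_mem {R : Subring ℂ} {x : ℂ} (hx : x ∈ R) : trn x ∈ Gam R := by
  rw [mem_Gam]
  intro i j
  fin_cases i <;> fin_cases j
  · simp [trn, Pool.Agent.Helper10.Ram.trans]
  · simpa [trn, Pool.Agent.Helper10.Ram.trans] using hx
  · simp [trn, Pool.Agent.Helper10.Ram.trans]
  · simp [trn, Pool.Agent.Helper10.Ram.trans]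

theorem trn_mul_row (x : ℂ) (g : SL2C) (j : Fin 2) : (trn x * g) 1 j = g 1 j := by
  rw [mul_coe]
  simp [trn, Pool.Agent.Helper10.Ram.trans]

theorem trn_mul_top (x : ℂ) (g : SL2C) (j : Fin 2) : (trn x * g) 0 j = g 0 j + x * g 1 j := by
  rw [mul_coe]
  simp [trn, Pool.Agent.Helper10.Ram.trans]

/-- two matrices with the same bottom row differ by a translation -/
theorem eq_trn_mul {R : Subring ℂ} {g h : SL2C} (hg : g ∈ Gam R) (hh : h ∈ Gam R)
    (h0 : h 1 0 = g 1 0) (h1 : h 1 1 = g 1 1) : ∃ x ∈ R, h = trn x * g := by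
  have hg' := mem_Gam.1 hg
  have hh' := mem_Gam.1 hh
  have dg := det_eq g
  have dh := det_eq h
  rw [h0, h1] at dh
  refine ⟨h 0 1 * g 0 0 - h 0 0 * g 0 1,
    R.sub_mem (R.mul_mem (hh' _ _) (hg' _ _)) (R.mul_mem (hh' _ _) (hg' _ _)), ?_⟩
  ext i j
  fin_cases i
  · show h 0 j = (trn _ * g) 0 j
    rw [trn_mul_top]
    fin_cases j
    · show h 0 0 = g 0 0 + _ * g 1 0
      linear_combination (-(h 0 0)) * dg + (g 0 0) * dh
    · show h 0 1 = g 0 1 + _ * g 1 1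
      linear_combination (-(h 0 1)) * dg + (g 0 1) * dh
  · show h 1 j = (trn _ * g) 1 j
    rw [trn_mul_row]
    fin_cases j
    · exact h0
    · exact h1

/-- bottom row -/
noncomputable def row {R : Subring ℂ} (γ : Gam R) : Prim R :=
  ⟨((γ : SL2C) 1 0, (γ : SL2C) 1 1), γ, γ.2, rfl⟩

theorem one_div_uval (g : SL2C) (p : Pt) : 1 / uval (g 1 0, g 1 1) p = (act g p).2 := by
  show 1 / ((‖g 1 0 * p.1 + g 1 1‖ ^ 2 + ‖g 1 0‖ ^ 2 * p.2 ^ 2) / p.2) = p.2 / den g p
  rw [one_div_div]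
  rfl

open Classical in
/-- the strip function -/
noncomputable def strip (τ : ℂ) (ψ : ℝ → ENNReal) : Pt → ENNReal :=
  Set.indicator (cellSet τ ×ˢ Set.Ioi (0 : ℝ)) (fun p => ψ p.2)

theorem measurable_strip (τ : ℂ) {ψ : ℝ → ENNReal} (hψ : Measurable ψ) :
    Measurable (strip τ ψ) :=
  (hψ.comp measurable_snd).indicator ((measurableSet_cellSet τ).prod measurableSet_Ioi)

theorem sum_strip {R : Subring ℂ} {τ : ℂ} (hτ : IsLat R τ) (ψ : ℝ → ENNReal) {p : Pt}
    (hp : p ∈ UH) :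
    ∑' γ : Gam R, strip τ ψ (act γ p) = ∑' v : Prim R, ψ (1 / uval v p) := by
  rw [← (Equiv.sigmaFiberEquiv (row (R := R))).tsum_eq, ENNReal.tsum_sigma']
  refine tsum_congr fun v => ?_
  obtain ⟨v, γ₀, hγ₀, hv⟩ := v
  obtain ⟨x, hx, hxc⟩ := exists_mem_cell hτ (act γ₀ p).1
  have hact : ∀ y : ℂ, ∀ g : SL2C, act (trn y * g) p = ((act g p).1 + y, (act g p).2) := by
    intro y g
    rw [act_mul _ _ hp, act_trans]
  have hmem : trn x * γ₀ ∈ Gam R := (Gam R).mul_mem (trn_mem hx) hγ₀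
  let γ₁ : Gam R := ⟨trn x * γ₀, hmem⟩
  have hrow : row γ₁ = (⟨v, γ₀, hγ₀, hv⟩ : Prim R) := by
    apply Subtype.ext
    show ((trn x * γ₀) 1 0, (trn x * γ₀) 1 1) = v
    rw [trn_mul_row, trn_mul_row, hv]
  rw [tsum_eq_single (⟨γ₁, hrow⟩ : {γ : Gam R // row γ = (⟨v, γ₀, hγ₀, hv⟩ : Prim R)})]
  · show strip τ ψ (act (trn x * γ₀) p) = ψ (1 / uval v p)
    have hpos : (0 : ℝ) < (act γ₀ p).2 := act_mem γ₀ hp
    rw [hact, hv, one_div_uval]
    unfold strip
    rw [Set.indicator_of_mem]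
    exact ⟨hxc, hpos⟩
  · rintro ⟨γ, hγ⟩ hne
    show strip τ ψ (act γ p) = 0
    unfold strip
    rw [Set.indicator_of_notMem]
    intro hcell
    apply hne
    apply Subtype.ext
    apply Subtype.ext
    show (γ : SL2C) = trn x * γ₀
    have e : ((γ : SL2C) 1 0, (γ : SL2C) 1 1) = (γ₀ 1 0, γ₀ 1 1) := by
      rw [← hv]
      exact congrArg Subtype.val hγ
    obtain ⟨y, hy, hγy⟩ := eq_trn_mul hγ₀ γ.2 (congrArg Prod.fst e) (congrArg Prod.snd e)
    rw [hγy, hact] at hcell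
    have h0 : y - x = 0 := by
      refine cell_unique hτ (R.sub_mem hy hx) hxc ?_
      have : (act γ₀ p).1 + x + (y - x) = (act γ₀ p).1 + y := by ring
      rw [this]
      exact hcell.1
    have h1 : y = x := by linear_combination h0
    rw [hγy, h1]

theorem lintegral_strip {τ : ℂ} (hτ : 0 < τ.im) {ψ : ℝ → ENNReal} (hψ : Measurable ψ)
    {F : Pt → ENNReal} (hF : Measurable F) :
    ∫⁻ p, strip τ ψ p * F p ∂hyp = ENNReal.ofReal τ.im *
      ∫⁻ r in Set.Ioi (0 : ℝ), ψ r * cellInt τ 1 F r * ENNReal.ofReal ((r ^ 3)⁻¹) := by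
  have hd : Measurable fun p : Pt => ENNReal.ofReal ((p.2 ^ 3)⁻¹) :=
    ENNReal.measurable_ofReal.comp (by fun_prop)
  have hη := measurable_strip τ hψ
  have hUH : UH = Set.univ ×ˢ Set.Ioi (0 : ℝ) := by
    ext p
    simp [UH]
  have hm : Measurable fun p : Pt => strip τ ψ p * F p := hη.mul hF
  have hm2 : Measurable fun p : Pt => ENNReal.ofReal ((p.2 ^ 3)⁻¹) * (strip τ ψ p * F p) :=
    hd.mul hm
  have e0 : ∫⁻ p, strip τ ψ p * F p ∂hyp = ∫⁻ r in Set.Ioi (0 : ℝ), ∫⁻ z : ℂ,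
      (fun p : Pt => ENNReal.ofReal ((p.2 ^ 3)⁻¹) * (strip τ ψ p * F p)) (z, r) := by
    unfold hyp
    rw [lintegral_withDensity_eq_lintegral_mul _ hd hm, hUH, Measure.volume_eq_prod,
      ← Measure.prod_restrict, Measure.restrict_univ]
    exact lintegral_prod_symm' _ hm2
  rw [e0]
  have hcell : ∀ r ∈ Set.Ioi (0 : ℝ), ∫⁻ z : ℂ, (fun p : Pt => ENNReal.ofReal ((p.2 ^ 3)⁻¹) *
      (strip τ ψ p * F p)) (z, r) = ENNReal.ofReal τ.im * (ψ r * cellInt τ 1 F r *
        ENNReal.ofReal ((r ^ 3)⁻¹)) := by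
    intro r hr
    have hFr : Measurable fun z : ℂ => F (z, r) := hF.comp (by fun_prop)
    have e1 : ∫⁻ z : ℂ, (fun p : Pt => ENNReal.ofReal ((p.2 ^ 3)⁻¹) *
        (strip τ ψ p * F p)) (z, r) =
        ∫⁻ z in cellSet τ, ENNReal.ofReal ((r ^ 3)⁻¹) * (ψ r * F (z, r)) := by
      rw [← lintegral_indicator (measurableSet_cellSet τ)]
      refine lintegral_congr fun z => ?_
      by_cases hz : z ∈ cellSet τ
      · rw [Set.indicator_of_mem hz]
        unfold strip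
        simp only
        rw [Set.indicator_of_mem (show (z, r) ∈ cellSet τ ×ˢ Set.Ioi (0 : ℝ) from ⟨hz, hr⟩)]
      · rw [Set.indicator_of_notMem hz]
        unfold strip
        simp only
        rw [Set.indicator_of_notMem (show (z, r) ∉ cellSet τ ×ˢ Set.Ioi (0 : ℝ) from
          fun h => hz h.1)]
        simp
    have e2 : cellInt τ 1 F r = ∫⁻ s in Set.Icc (0 : ℝ) 1, ∫⁻ t in Set.Icc (0 : ℝ) 1,
        F (s + t * τ, r) := by
      unfold cellInt
      simp only [one_mul]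
    rw [e1, lintegral_const_mul _ (hFr.const_mul _), lintegral_const_mul _ hFr,
      lintegral_cell hτ _ hFr, e2]
    ring
  rw [← lintegral_const_mul']
  · exact setLIntegral_congr_fun measurableSet_Ioi hcell
  · exact ENNReal.ofReal_ne_top

end Pool.Agent.Helper50.Ram
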